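import Mathlib
import Pool.Agent.Q47.FM.Defs
import Pool.Agent.Q47.FM.Aut

/-!
# A flat manifold with `b₁ = 0` all of whose complex structures have infinite automorphism group
(MP_bb2d27_ag)

Q1 is answered positively. The example has dimension 16. Its fundamental group `Γ` consists of the
isometries `γ_t` of `ℝ³ ⊗ ℝ² ⊕ ℝ⁵ ⊗ ℝ²`, where `t` runs through the integer vectors whose
coordinates `n₀, n₁, n₂` in the first copy of `ℝ³` have an even sum: the linear part of `γ_t` is
multiplication by the signs `(-1)^{n₂}, (-1)^{n₀}, (-1)^{n₁}` on `ℝ³` (a Hantzsche-Wendt group) and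
`(-1)^{n₂}` times the permutation `j ↦ (-1)^{n₁} j + n₂` of `ℤ/5` on `ℝ⁵`, and its translation part is
`t`. The holonomy group contains the cyclic shift `T` of `ℝ⁵` (the identity on `ℝ³`), and
`T + T⁻¹ - 1` is a unit of infinite order of the integral group ring which commutes with every complex
structure and normalises `Γ`.
-/

namespace Pool.Agent.Results.MP_bb2d27_ag.AlwaysInfinite

open Q47.FM

theorem result : ∃ (ι : Type) (_ : Fintype ι) (_ : DecidableEq ι)
    (Γ : Subgroup (Equiv.Perm (ι → ℝ))),
    IsBieberbach Γ ∧ FirstBettiZero Γ ∧ (∃ J, IsComplexStructure Γ J) ∧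
      ∀ J, IsComplexStructure Γ J → (autSet Γ J).Infinite :=
  ⟨I, inferInstance, inferInstance, Gam, isBieberbach, firstBettiZero,
    ⟨_, J₀_isComplexStructure⟩, fun _ hJ => aut_infinite hJ⟩

end Pool.Agent.Results.MP_bb2d27_ag.AlwaysInfinite
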